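import Mathlib

/-!
# A residually finite, residually nilpotent group without finite soluble quotients

Let `R` be the ring of integer valued polynomials (as functions `ℤ → ℤ`) and `I` the
ideal of those vanishing at `0`.  By Fermat, `F ^ p - F` is `p` times an element of `I`,
so `I / I ^ 2` is divisible.  Let `Γ` be the subgroup of `GL₃(R)` generated by the
elementary matrices with entry in `I`.  Then `Γ` is residually finite (evaluate at an
integer and reduce modulo `m`), residually nilpotent (congruence subgroups modulo the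
powers of `I`), but it has no nontrivial finite soluble quotient.
-/

namespace Pool.Agent.Results.MP_92b5af_al.ResFinNotFinSol

open Polynomial

/-- `Γ` is residually finite: every `g ≠ 1` lies outside some normal subgroup with
finite quotient. -/
def ResiduallyFinite (Γ : Type) [Group Γ] : Prop :=
  ∀ g : Γ, g ≠ 1 → ∃ N : Subgroup Γ, N.Normal ∧ g ∉ N ∧ Finite (Γ ⧸ N)

/-- `Γ` is residually soluble. -/
def ResiduallySoluble (Γ : Type) [Group Γ] : Prop :=
  ∀ g : Γ, g ≠ 1 → ∃ (N : Subgroup Γ) (_ : N.Normal), g ∉ N ∧ Group.IsSolvable (Γ ⧸ N)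

/-- `Γ` is residually nilpotent. -/
def ResiduallyNilpotent (Γ : Type) [Group Γ] : Prop :=
  ∀ g : Γ, g ≠ 1 → ∃ (N : Subgroup Γ) (_ : N.Normal), g ∉ N ∧ Group.IsNilpotent (Γ ⧸ N)

/-- `Γ` is residually finite-soluble: every `g ≠ 1` lies outside some normal subgroup
whose quotient is finite and soluble. -/
def ResiduallyFiniteSoluble (Γ : Type) [Group Γ] : Prop :=
  ∀ g : Γ, g ≠ 1 → ∃ (N : Subgroup Γ) (_ : N.Normal), g ∉ N ∧ Finite (Γ ⧸ N) ∧
    Group.IsSolvable (Γ ⧸ N)

/-! ### The ring -/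

/-- integer valued polynomials as functions -/
def R : Subring (ℤ → ℤ) where
  carrier := {F | ∃ f : ℚ[X], ∀ n : ℤ, ((F n : ℤ) : ℚ) = f.eval (n : ℚ)}
  mul_mem' := by
    rintro F G ⟨f, hf⟩ ⟨g, hg⟩
    exact ⟨f * g, fun n => by simp [hf, hg]⟩
  one_mem' := ⟨1, fun n => by simp⟩
  add_mem' := by
    rintro F G ⟨f, hf⟩ ⟨g, hg⟩
    exact ⟨f + g, fun n => by simp [hf, hg]⟩
  zero_mem' := ⟨0, fun n => by simp⟩
  neg_mem' := by
    rintro F ⟨f, hf⟩
    exact ⟨-f, fun n => by simp [hf]⟩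

/-- evaluation at an integer -/
def ev (n : ℤ) : R →+* ℤ := (Pi.evalRingHom (fun _ : ℤ => ℤ) n).comp R.subtype

lemma ev_apply (n : ℤ) (F : R) : ev n F = (F : ℤ → ℤ) n := rfl

/-- the ideal of functions vanishing at `0` -/
def I : Ideal R := RingHom.ker (ev 0)

lemma mem_I {F : R} : F ∈ I ↔ (F : ℤ → ℤ) 0 = 0 := Iff.rfl

lemma exists_pow_sub (p : ℕ) (hp : p.Prime) (F : R) (hF : F ∈ I) :
    ∃ H ∈ I, F ^ p = F + (p : R) * H := by
  have := Fact.mk hp
  obtain ⟨f, hf⟩ := F.2
  have hdvd : ∀ n : ℤ, (p : ℤ) ∣ (F : ℤ → ℤ) n ^ p - (F : ℤ → ℤ) n := by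
    intro n
    rw [← ZMod.intCast_zmod_eq_zero_iff_dvd]
    push_cast
    rw [ZMod.pow_card, sub_self]
  choose h hh using hdvd
  have hp0 : (p : ℚ) ≠ 0 := by exact_mod_cast hp.ne_zero
  refine ⟨⟨h, C ((p : ℚ)⁻¹) * (f ^ p - f), ?_⟩, ?_, ?_⟩
  · intro n
    have := hh n
    have h2 : (((F : ℤ → ℤ) n : ℤ) : ℚ) ^ p - (((F : ℤ → ℤ) n : ℤ) : ℚ) = (p : ℚ) * (h n : ℚ) := by
      exact_mod_cast this
    rw [hf] at h2
    simp only [eval_mul, eval_C, eval_sub, eval_pow]
    rw [h2]
    field_simp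
  · rw [mem_I]
    have := hh 0
    rw [mem_I] at hF
    rw [hF] at this
    simp only [ne_eq, hp.ne_zero, not_false_eq_true, zero_pow, sub_self] at this
    have hp' : (p : ℤ) ≠ 0 := by exact_mod_cast hp.ne_zero
    show h 0 = 0
    exact (mul_eq_zero.mp this.symm).resolve_left hp'
  · apply Subtype.ext
    funext n
    have := hh n
    show (F : ℤ → ℤ) n ^ p = (F : ℤ → ℤ) n + (((p : R) : ℤ → ℤ) n) * h n
    have e : ((p : R) : ℤ → ℤ) n = (p : ℤ) := by simp
    rw [e]
    linarith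

/-! ### Intersection of the powers of `I` -/

lemma poly_unique (f g : ℚ[X]) (h : ∀ n : ℤ, f.eval (n : ℚ) = g.eval (n : ℚ)) : f = g := by
  apply Polynomial.eq_of_infinite_eval_eq
  apply Set.Infinite.mono (s := Set.range (fun n : ℤ => (n : ℚ)))
  · rintro _ ⟨n, rfl⟩
    exact h n
  · exact Set.infinite_range_of_injective Int.cast_injective

/-- the polynomial of an element of `R` -/
noncomputable def P (F : R) : ℚ[X] := F.2.choose

lemma P_spec (F : R) (n : ℤ) : (((F : ℤ → ℤ) n : ℤ) : ℚ) = (P F).eval (n : ℚ) :=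
  F.2.choose_spec n

lemma P_mul (F G : R) : P (F * G) = P F * P G := by
  apply poly_unique
  intro n
  rw [← P_spec, eval_mul, ← P_spec, ← P_spec]
  simp

lemma P_add (F G : R) : P (F + G) = P F + P G := by
  apply poly_unique
  intro n
  rw [← P_spec, eval_add, ← P_spec, ← P_spec]
  simp

lemma P_zero : P 0 = 0 := by
  apply poly_unique
  intro n
  rw [← P_spec]
  simp

/-- ideal of elements with polynomial divisible by `X ^ k` -/
def J (k : ℕ) : Ideal R where
  carrier := {F | X ^ k ∣ P F}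
  add_mem' := by
    intro a b ha hb
    show X ^ k ∣ P (a + b)
    rw [P_add]; exact dvd_add ha hb
  zero_mem' := by
    show X ^ k ∣ P 0
    rw [P_zero]; exact dvd_zero _
  smul_mem' := by
    intro c x hx
    show X ^ k ∣ P (c * x)
    rw [P_mul]; exact Dvd.dvd.mul_left hx _

lemma I_le_J : I ≤ J 1 := by
  intro F hF
  show X ^ 1 ∣ P F
  rw [pow_one, X_dvd_iff, coeff_zero_eq_eval_zero]
  have := P_spec F 0
  rw [mem_I] at hF
  rw [hF] at this
  simpa using this.symm

lemma J_mul (j k : ℕ) {F G : R} (hF : F ∈ J j) (hG : G ∈ J k) : F * G ∈ J (j + k) := by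
  show X ^ (j + k) ∣ P (F * G)
  rw [P_mul, pow_add]
  exact mul_dvd_mul hF hG

lemma J_inf {F : R} (h : ∀ k, F ∈ J k) : F = 0 := by
  have h0 : P F = 0 := by
    by_contra hne
    have := Polynomial.natDegree_le_of_dvd (h ((P F).natDegree + 1)) hne
    rw [natDegree_X_pow] at this
    omega
  apply Subtype.ext
  funext n
  have := P_spec F n
  rw [h0] at this
  simp only [eval_zero, Int.cast_eq_zero] at this
  simpa using this

/-! ### The group -/

/-- the ambient group -/
abbrev GG := (Matrix (Fin 3) (Fin 3) R)ˣ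

/-- matrix with all entries in an ideal -/
def InM (K : Ideal R) (A : Matrix (Fin 3) (Fin 3) R) : Prop := ∀ i j, A i j ∈ K

lemma InM.add {K : Ideal R} {A B : Matrix (Fin 3) (Fin 3) R} (hA : InM K A) (hB : InM K B) :
    InM K (A + B) := fun i j => K.add_mem (hA i j) (hB i j)

lemma InM.sub {K : Ideal R} {A B : Matrix (Fin 3) (Fin 3) R} (hA : InM K A) (hB : InM K B) :
    InM K (A - B) := fun i j => K.sub_mem (hA i j) (hB i j)

lemma InM.mul_right {K : Ideal R} {A : Matrix (Fin 3) (Fin 3) R} (hA : InM K A)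
    (B : Matrix (Fin 3) (Fin 3) R) : InM K (A * B) := fun i j => by
  rw [Matrix.mul_apply]
  exact K.sum_mem fun k _ => K.mul_mem_right _ (hA i k)

lemma InM.mul_left {K : Ideal R} {A : Matrix (Fin 3) (Fin 3) R} (hA : InM K A)
    (B : Matrix (Fin 3) (Fin 3) R) : InM K (B * A) := fun i j => by
  rw [Matrix.mul_apply]
  exact K.sum_mem fun k _ => K.mul_mem_left _ (hA k j)

lemma InM.mul {j k : ℕ} {A B : Matrix (Fin 3) (Fin 3) R} (hA : InM (J j) A)
    (hB : InM (J k) B) : InM (J (j + k)) (A * B) := fun i l => by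
  rw [Matrix.mul_apply]
  exact (J (j + k)).sum_mem fun m _ => J_mul j k (hA i m) (hB m l)

/-- congruence subgroup of level `k` -/
def Cong (k : ℕ) : Subgroup GG where
  carrier := {g | InM (J k) ((g : Matrix (Fin 3) (Fin 3) R) - 1)}
  mul_mem' := by
    intro a b ha hb
    show InM (J k) (((a * b : GG) : Matrix (Fin 3) (Fin 3) R) - 1)
    have : ((a * b : GG) : Matrix (Fin 3) (Fin 3) R) - 1 =
      ((a : Matrix (Fin 3) (Fin 3) R) - 1) * (b : Matrix (Fin 3) (Fin 3) R) +
        ((b : Matrix (Fin 3) (Fin 3) R) - 1) := by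
      rw [Units.val_mul]; noncomm_ring
    rw [this]
    exact (InM.mul_right ha _).add hb
  one_mem' := by
    show InM (J k) (((1 : GG) : Matrix (Fin 3) (Fin 3) R) - 1)
    intro i j
    simp
  inv_mem' := by
    intro a ha
    show InM (J k) (((a⁻¹ : GG) : Matrix (Fin 3) (Fin 3) R) - 1)
    have : ((a⁻¹ : GG) : Matrix (Fin 3) (Fin 3) R) - 1 =
      0 - ((a : Matrix (Fin 3) (Fin 3) R) - 1) * ((a⁻¹ : GG) : Matrix (Fin 3) (Fin 3) R) := by
      rw [sub_mul, Units.mul_inv, one_mul]; abel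
    rw [this]
    refine InM.sub (fun i j => (J k).zero_mem) (InM.mul_right ha _)

lemma mem_Cong {k : ℕ} {g : GG} : g ∈ Cong k ↔ InM (J k) ((g : Matrix (Fin 3) (Fin 3) R) - 1) :=
  Iff.rfl

open scoped commutatorElement in
lemma comm_mem {j k : ℕ} {g h : GG} (hg : g ∈ Cong j) (hh : h ∈ Cong k) :
    ⁅g, h⁆ ∈ Cong (j + k) := by
  rw [mem_Cong] at *
  have : ((⁅g, h⁆ : GG) : Matrix (Fin 3) (Fin 3) R) - 1 =
    (((g : Matrix (Fin 3) (Fin 3) R) - 1) * ((h : Matrix (Fin 3) (Fin 3) R) - 1) -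
      ((h : Matrix (Fin 3) (Fin 3) R) - 1) * ((g : Matrix (Fin 3) (Fin 3) R) - 1)) *
      (((g⁻¹ : GG) : Matrix (Fin 3) (Fin 3) R) * ((h⁻¹ : GG) : Matrix (Fin 3) (Fin 3) R)) := by
    have e1 : (((g : Matrix (Fin 3) (Fin 3) R) - 1) * ((h : Matrix (Fin 3) (Fin 3) R) - 1) -
      ((h : Matrix (Fin 3) (Fin 3) R) - 1) * ((g : Matrix (Fin 3) (Fin 3) R) - 1)) =
      (g : Matrix (Fin 3) (Fin 3) R) * h - (h : Matrix (Fin 3) (Fin 3) R) * g := by
      noncomm_ring
    have e2 : ((h * g : GG) * (g⁻¹ * h⁻¹) : GG) = 1 := by group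
    have e3 : ((h * g : GG) : Matrix (Fin 3) (Fin 3) R) *
      ((g⁻¹ * h⁻¹ : GG) : Matrix (Fin 3) (Fin 3) R) = 1 := by
      rw [← Units.val_mul, e2, Units.val_one]
    rw [e1, sub_mul, ← Units.val_mul, ← Units.val_mul h g, ← Units.val_mul g⁻¹ h⁻¹, e3,
      ← Units.val_mul, commutatorElement_def]
    congr 2
    group
  rw [this]
  refine InM.mul_right (InM.sub (InM.mul hg hh) ?_) _
  rw [add_comm]
  exact InM.mul hh hg

/-- elementary matrices -/
def el (i j : Fin 3) (h : i ≠ j) (c : R) : GG where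
  val := Matrix.transvection i j c
  inv := Matrix.transvection i j (-c)
  val_inv := by
    rw [Matrix.transvection_mul_transvection_same _ _ h]; simp
  inv_val := by
    rw [Matrix.transvection_mul_transvection_same _ _ h]; simp

lemma el_add (i j : Fin 3) (h : i ≠ j) (c d : R) : el i j h (c + d) = el i j h c * el i j h d := by
  apply Units.ext
  show Matrix.transvection i j (c + d) = Matrix.transvection i j c * Matrix.transvection i j d
  rw [Matrix.transvection_mul_transvection_same _ _ h]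

lemma el_zero (i j : Fin 3) (h : i ≠ j) : el i j h 0 = 1 := by
  apply Units.ext
  show Matrix.transvection i j (0 : R) = 1
  simp

lemma el_inv (i j : Fin 3) (h : i ≠ j) (c : R) : (el i j h c)⁻¹ = el i j h (-c) := by
  rw [inv_eq_iff_mul_eq_one, ← el_add]; simp [el_zero]

lemma ring_comm {S : Type*} [Ring S] (a b : S) (haa : a * a = 0) (hbb : b * b = 0)
    (hba : b * a = 0) : (1 + a) * (1 + b) * (1 + -a) * (1 + -b) = 1 + a * b := by
  have h3 : (1 + a) * (1 + b) * (1 + -a) = 1 + b + a * b := by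
    calc (1 + a) * (1 + b) * (1 + -a) = 1 + b + a * b - a * a - b * a - a * (b * a) := by
          noncomm_ring
      _ = 1 + b + a * b := by rw [haa, hba]; simp
  rw [h3]
  calc (1 + b + a * b) * (1 + -b) = 1 + a * b - b * b - a * (b * b) := by noncomm_ring
    _ = 1 + a * b := by rw [hbb]; simp

open scoped commutatorElement in
lemma el_comm (i j k : Fin 3) (hik : i ≠ k) (hkj : k ≠ j) (hij : i ≠ j) (c d : R) :
    el i j hij (c * d) = ⁅el i k hik c, el k j hkj d⁆ := by
  rw [commutatorElement_def, el_inv, el_inv]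
  apply Units.ext
  rw [Units.val_mul, Units.val_mul, Units.val_mul]
  show Matrix.transvection i j (c * d) = Matrix.transvection i k c * Matrix.transvection k j d *
    Matrix.transvection i k (-c) * Matrix.transvection k j (-d)
  unfold Matrix.transvection
  have h1 : Matrix.single i k (-c) = -Matrix.single i k c := by
    ext x y; simp [Matrix.single_apply]; split_ifs <;> simp
  have h2 : Matrix.single k j (-d) = -Matrix.single k j d := by
    ext x y; simp [Matrix.single_apply]; split_ifs <;> simp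
  rw [h1, h2, ring_comm, Matrix.single_mul_single_same]
  · exact Matrix.single_mul_single_of_ne _ _ _ _ hik.symm _
  · exact Matrix.single_mul_single_of_ne _ _ _ _ hkj.symm _
  · exact Matrix.single_mul_single_of_ne _ _ _ _ hij.symm _

lemma el_mem_Cong (i j : Fin 3) (h : i ≠ j) {c : R} (hc : c ∈ I) : el i j h c ∈ Cong 1 := by
  rw [mem_Cong]
  intro x y
  show (Matrix.transvection i j c - 1) x y ∈ J 1
  unfold Matrix.transvection
  rw [add_sub_cancel_left, Matrix.single_apply]
  split_ifs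
  · exact I_le_J hc
  · exact (J 1).zero_mem

/-- the group of the example: generated by elementary matrices with entry in `I` -/
def Gam : Subgroup GG :=
  Subgroup.closure {g | ∃ (i j : Fin 3) (h : i ≠ j) (c : R), c ∈ I ∧ g = el i j h c}

lemma Gam_le : Gam ≤ Cong 1 := by
  rw [Gam, Subgroup.closure_le]
  rintro _ ⟨i, j, h, c, hc, rfl⟩
  exact el_mem_Cong i j h hc

lemma el_mem_Gam (i j : Fin 3) (h : i ≠ j) {c : R} (hc : c ∈ I) : el i j h c ∈ Gam :=
  Subgroup.subset_closure ⟨i, j, h, c, hc, rfl⟩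

/-- elementary matrices as elements of the group -/
def ge (i j : Fin 3) (h : i ≠ j) (c : I) : Gam := ⟨el i j h c, el_mem_Gam i j h c.2⟩

/-- the function `n ↦ n` -/
def tt : R := ⟨fun n => n, X, fun n => by simp⟩

lemma tt_mem : tt ∈ I := rfl

lemma nontrivial_Gam : Nontrivial Gam := by
  refine ⟨⟨ge 0 1 (by decide) ⟨tt, tt_mem⟩, 1, ?_⟩⟩
  intro h
  have h1 := congrArg (fun g : Gam => ((g : GG) : Matrix (Fin 3) (Fin 3) R) 0 1) h
  have h2 : Matrix.transvection (0 : Fin 3) 1 tt 0 1 = (1 : Matrix (Fin 3) (Fin 3) R) 0 1 := h1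
  have h3 : tt = 0 := by
    simpa [Matrix.transvection, Matrix.single_apply, Matrix.one_apply] using h2
  have h4 := congrArg (fun F : R => (F : ℤ → ℤ) 1) h3
  have h5 : (1 : ℤ) = 0 := h4
  omega

/-- reduction of matrices at an integer modulo `m` -/
def red (n : ℤ) (m : ℕ) : GG →* (Matrix (Fin 3) (Fin 3) (ZMod m))ˣ :=
  Units.map (((Int.castRingHom (ZMod m)).comp (ev n)).mapMatrix : _ →+* _).toMonoidHom

lemma resFin : ResiduallyFinite Gam := by
  intro g hg
  have h1 : ((g : GG) : Matrix (Fin 3) (Fin 3) R) ≠ 1 := by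
    intro h
    apply hg
    apply Subtype.ext
    apply Units.ext
    exact h
  obtain ⟨i, j, n, hn⟩ : ∃ i j : Fin 3, ∃ n : ℤ, ((((g : GG) : Matrix (Fin 3) (Fin 3) R) i j : R) : ℤ → ℤ) n
      ≠ (((1 : Matrix (Fin 3) (Fin 3) R) i j : R) : ℤ → ℤ) n := by
    by_contra hcon
    push Not at hcon
    apply h1
    refine Matrix.ext fun i j => ?_
    exact Subtype.ext (funext fun n => hcon i j n)
  set a := ((((g : GG) : Matrix (Fin 3) (Fin 3) R) i j : R) : ℤ → ℤ) n with ha
  set b := (((1 : Matrix (Fin 3) (Fin 3) R) i j : R) : ℤ → ℤ) n with hb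
  let m : ℕ := (a - b).natAbs + 1
  have hm : m ≠ 0 := Nat.succ_ne_zero _
  have : NeZero m := ⟨hm⟩
  let φ := (red n m).comp Gam.subtype
  refine ⟨φ.ker, inferInstance, ?_, ?_⟩
  · intro hk
    rw [MonoidHom.mem_ker] at hk
    have h2 := congrArg (fun u : (Matrix (Fin 3) (Fin 3) (ZMod m))ˣ => (u : Matrix (Fin 3) (Fin 3) (ZMod m)) i j) hk
    have h3 : ((a : ℤ) : ZMod m) = (1 : Matrix (Fin 3) (Fin 3) (ZMod m)) i j := h2
    have h4 : ((b : ℤ) : ZMod m) = (1 : Matrix (Fin 3) (Fin 3) (ZMod m)) i j := by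
      rw [hb, Matrix.one_apply, Matrix.one_apply]
      split_ifs <;> simp
    have h5 : ((a - b : ℤ) : ZMod m) = 0 := by
      push_cast
      rw [h3, h4, sub_self]
    rw [ZMod.intCast_zmod_eq_zero_iff_dvd] at h5
    have h6 : a - b = 0 := by
      apply Int.eq_zero_of_abs_lt_dvd h5
      rw [Int.abs_eq_natAbs]
      simp only [m]
      push_cast
      omega
    exact hn (sub_eq_zero.mp h6)
  · exact Finite.of_equiv _ (QuotientGroup.quotientKerEquivRange φ).symm.toEquiv

lemma lcs_le (n : ℕ) : ((⊤ : Subgroup Gam).lowerCentralSeries n).map Gam.subtype ≤ Cong (n + 1) := by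
  induction n with
  | zero =>
    rintro _ ⟨g, -, rfl⟩
    exact Gam_le g.2
  | succ n ih =>
    rw [Subgroup.lowerCentralSeries_succ, Subgroup.map_commutator, Subgroup.commutator_le]
    intro g hg h hh
    have h1 := ih hg
    have h2 : h ∈ Cong 1 := by
      obtain ⟨x, -, rfl⟩ := hh
      exact Gam_le x.2
    exact comm_mem h1 h2

lemma Cong_inf {g : GG} (h : ∀ k, g ∈ Cong (k + 1)) : g = 1 := by
  apply Units.ext
  rw [Units.val_one, ← sub_eq_zero]
  refine Matrix.ext fun i j => ?_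
  apply J_inf
  intro k
  have h1 : X ^ (k + 1) ∣ P (((g : Matrix (Fin 3) (Fin 3) R) - 1) i j) := h k i j
  show X ^ k ∣ P (((g : Matrix (Fin 3) (Fin 3) R) - 1) i j)
  exact (pow_dvd_pow X (Nat.le_succ k)).trans h1

lemma resNil : ResiduallyNilpotent Gam := by
  intro g hg
  obtain ⟨k, hk⟩ : ∃ k, (g : GG) ∉ Cong (k + 1) := by
    by_contra hcon
    push Not at hcon
    exact hg (Subtype.ext (Cong_inf hcon))
  refine ⟨(⊤ : Subgroup Gam).lowerCentralSeries k, inferInstance, ?_, ?_⟩
  · intro hmem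
    exact hk (lcs_le k ⟨g, hmem, rfl⟩)
  · rw [Subgroup.nilpotent_iff_lowerCentralSeries]
    refine ⟨k, ?_⟩
    have h1 := Subgroup.map_lowerCentralSeries (S := (⊤ : Subgroup Gam))
      (QuotientGroup.mk' ((⊤ : Subgroup Gam).lowerCentralSeries k)) k
    rw [Subgroup.map_top_of_surjective _ (QuotientGroup.mk'_surjective _)] at h1
    rw [← h1, QuotientGroup.map_mk'_self]

lemma ge_add (i j : Fin 3) (h : i ≠ j) (c d : I) : ge i j h (c + d) = ge i j h c * ge i j h d :=
  Subtype.ext (el_add i j h c d)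

lemma ge_zero (i j : Fin 3) (h : i ≠ j) : ge i j h 0 = 1 := Subtype.ext (el_zero i j h)

lemma ge_neg (i j : Fin 3) (h : i ≠ j) (c : I) : ge i j h (-c) = (ge i j h c)⁻¹ := by
  rw [eq_inv_iff_mul_eq_one, ← ge_add]; simp [ge_zero]

lemma ge_nsmul (i j : Fin 3) (h : i ≠ j) (n : ℕ) (c : I) :
    ge i j h (n • c) = ge i j h c ^ n := by
  induction n with
  | zero => simp [ge_zero]
  | succ n ih => rw [succ_nsmul, ge_add, ih, pow_succ]

open scoped commutatorElement in
lemma ge_comm (i j k : Fin 3) (hik : i ≠ k) (hkj : k ≠ j) (hij : i ≠ j) (c d : I) :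
    ge i j hij ⟨(c : R) * d, I.mul_mem_left _ d.2⟩ = ⁅ge i k hik c, ge k j hkj d⁆ :=
  Subtype.ext (el_comm i j k hik hkj hij c d)

/-- every homomorphism to a finite abelian group is trivial -/
lemma hom_trivial (A : Type) [CommGroup A] [Finite A] (φ : Gam →* A) (g : Gam) : φ g = 1 := by
  have key : ∀ (i j : Fin 3) (h : i ≠ j) (n : ℕ), n ≠ 0 → ∀ c : I, ∃ d : I,
      φ (ge i j h c) = φ (ge i j h d) ^ n := by
    intro i j h n
    induction n using Nat.recOnMul with
    | zero => intro h0; exact absurd rfl h0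
    | one => intro _ c; exact ⟨c, by simp⟩
    | prime p hp =>
      intro _ c
      obtain ⟨H, hH, hEq⟩ := exists_pow_sub p hp c c.2
      obtain ⟨k, hik, hkj⟩ : ∃ k : Fin 3, i ≠ k ∧ k ≠ j := by
        revert i j; decide
      have hp2 := hp.two_le
      have hc' : (c : R) ^ (p - 1) ∈ I := by
        obtain ⟨q, hq⟩ : ∃ q, p - 1 = q + 1 := ⟨p - 2, by omega⟩
        rw [hq, pow_succ]
        exact I.mul_mem_left _ c.2
      have h1 := ge_comm i j k hik hkj h c ⟨(c : R) ^ (p - 1), hc'⟩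
      have h2 : (⟨(c : R) * (c : R) ^ (p - 1), I.mul_mem_left _ hc'⟩ : I) =
          c + p • (⟨H, hH⟩ : I) := by
        apply Subtype.ext
        show (c : R) * (c : R) ^ (p - 1) = (c : R) + p • H
        rw [← pow_succ', nsmul_eq_mul, ← hEq]
        congr 1
        omega
      have h3 : φ (ge i j h c) * φ (ge i j h ⟨H, hH⟩) ^ p = 1 := by
        rw [← map_pow, ← map_mul, ← ge_nsmul, ← ge_add, ← h2]
        refine (congrArg φ h1).trans ?_
        rw [map_commutatorElement, commutatorElement_eq_one_iff_mul_comm]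
        exact mul_comm _ _
      refine ⟨-⟨H, hH⟩, ?_⟩
      rw [ge_neg, map_inv, inv_pow]
      exact eq_inv_of_mul_eq_one_left h3
    | mul a b ha hb =>
      intro hab c
      have ha0 : a ≠ 0 := left_ne_zero_of_mul hab
      have hb0 : b ≠ 0 := right_ne_zero_of_mul hab
      obtain ⟨d, hd⟩ := ha ha0 c
      obtain ⟨e, he⟩ := hb hb0 d
      exact ⟨e, by rw [hd, he, ← pow_mul, mul_comm]⟩
  have hgen : ∀ (i j : Fin 3) (h : i ≠ j) (c : I), φ (ge i j h c) = 1 := by
    intro i j h c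
    obtain ⟨d, hd⟩ := key i j h (Nat.card A) Nat.card_pos.ne' c
    rw [hd, pow_card_eq_one']
  obtain ⟨g, hg⟩ := g
  induction hg using Subgroup.closure_induction with
  | mem x hx =>
    obtain ⟨i, j, h, c, hc, rfl⟩ := hx
    exact hgen i j h ⟨c, hc⟩
  | one => exact map_one φ
  | mul x y hx hy ihx ihy =>
    have : (⟨x * y, Gam.mul_mem hx hy⟩ : Gam) = ⟨x, hx⟩ * ⟨y, hy⟩ := rfl
    rw [this, map_mul, ihx, ihy, one_mul]
  | inv x hx ih =>
    have : (⟨x⁻¹, Gam.inv_mem hx⟩ : Gam) = (⟨x, hx⟩ : Gam)⁻¹ := rfl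
    rw [this, map_inv, ih, inv_one]

lemma noFinSol (N : Subgroup Gam) [N.Normal] (hf : Finite (Gam ⧸ N))
    (hs : Group.IsSolvable (Gam ⧸ N)) : N = ⊤ := by
  by_contra hN
  have hnt : Nontrivial (Gam ⧸ N) := by
    rw [← not_subsingleton_iff_nontrivial]
    intro hss
    exact hN (QuotientGroup.subgroup_eq_top_of_subsingleton N hss)
  have h1 : commutator (Gam ⧸ N) < ⊤ := Group.IsSolvable.commutator_lt_top_of_nontrivial (Gam ⧸ N)
  apply h1.ne
  rw [eq_top_iff]
  rintro x -
  obtain ⟨g, rfl⟩ := QuotientGroup.mk'_surjective N x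
  have : Finite (Abelianization (Gam ⧸ N)) := Finite.of_surjective (Abelianization.of)
    (QuotientGroup.mk'_surjective _)
  have h2 := hom_trivial (Abelianization (Gam ⧸ N))
    ((Abelianization.of).comp (QuotientGroup.mk' N)) g
  rw [← Abelianization.ker_of]
  exact h2

/-- There is a group that is residually finite and residually soluble (even residually
nilpotent) but not residually finite-soluble; in fact it is nontrivial and has no
nontrivial finite soluble quotient at all. -/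
theorem result : ∃ (Γ : Type) (_ : Group Γ),
    ResiduallyFinite Γ ∧ ResiduallySoluble Γ ∧ ¬ ResiduallyFiniteSoluble Γ ∧
    ResiduallyNilpotent Γ ∧ Nontrivial Γ ∧
    ∀ (N : Subgroup Γ) [N.Normal], Finite (Γ ⧸ N) → Group.IsSolvable (Γ ⧸ N) → N = ⊤ := by
  refine ⟨Gam, inferInstance, resFin, ?_, ?_, resNil, nontrivial_Gam, ?_⟩
  · intro g hg
    obtain ⟨N, hN, hgN, hnil⟩ := resNil g hg
    exact ⟨N, hN, hgN, inferInstance⟩
  · intro h
    have := nontrivial_Gam
    obtain ⟨g, hg⟩ := exists_ne (1 : Gam)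
    obtain ⟨N, hN, hgN, hf, hs⟩ := h g hg
    exact hgN (by rw [noFinSol N hf hs]; trivial)
  · intro N _ hf hs
    exact noFinSol N hf hs

end Pool.Agent.Results.MP_92b5af_al.ResFinNotFinSol
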